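import Pool.Agent.R745.Tri.Forms

/-!
# Numbers represented by `a² + b² + 3c²`
-/

set_option autoImplicit false

open Matrix NumberTheorySymbols ZMod

namespace Pool.Agent.R745.Tri

open Pool.Agent.H132.Ternary

theorem dirichlet (M c : ℕ) (hM : 0 < M) (h : c.Coprime M) :
    ∃ p m : ℕ, p.Prime ∧ p = c + M * m := by
  haveI : NeZero M := ⟨hM.ne'⟩
  obtain ⟨p, hp1, hp2, hp3⟩ := Nat.forall_exists_prime_gt_and_eq_mod
    ((ZMod.isUnit_iff_coprime c M).2 h) c
  rw [ZMod.natCast_eq_natCast_iff] at hp3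
  have h1 : M ∣ p - c := (Nat.modEq_iff_dvd' hp1.le).1 hp3.symm
  obtain ⟨m, hm⟩ := h1
  exact ⟨p, m, hp2, by omega⟩

theorem jac3 {m : ℕ} (hm : m % 2 = 1) :
    (m % 3 = 1 → J(-3 | m) = 1) ∧ (m % 3 = 2 → J(-3 | m) = -1) := by
  have hodd : Odd m := Nat.odd_iff.2 hm
  have key : J(-3 | m) = J(m | 3) := by
    have h1 : J(-3 | m) = J(-1 | m) * J(3 | m) := by
      rw [← jacobiSym.mul_left]
      norm_num
    rw [h1, jacobiSym.at_neg_one hodd]
    have h4 : m % 4 = 1 ∨ m % 4 = 3 := by omega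
    rcases h4 with h | h
    · have h2 : J((3 : ℕ) | m) = J(m | 3) :=
        jacobiSym.quadratic_reciprocity_one_mod_four' (by decide) h
      rw [ZMod.χ₄_nat_one_mod_four h, one_mul]
      exact_mod_cast h2
    · have h2 : J((3 : ℕ) | m) = -J(m | 3) :=
        jacobiSym.quadratic_reciprocity_three_mod_four (by norm_num) h
      rw [ZMod.χ₄_nat_three_mod_four h]
      have h3 : J(3 | m) = -J(m | 3) := by exact_mod_cast h2
      rw [h3]
      ring
  constructor
  · intro h
    rw [key, jacobiSym.mod_left]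
    have : (m : ℤ) % (3 : ℕ) = 1 := by omega
    rw [this]
    exact jacobiSym.one_left _
  · intro h
    rw [key, jacobiSym.mod_left]
    have : (m : ℤ) % (3 : ℕ) = 2 := by omega
    rw [this, jacobiSym.at_two (by decide)]
    decide

theorem jac_rec {p m : ℕ} (hp : p % 4 = 1) (hm : m % 2 = 1) (h : (m : ℤ) ∣ p + 3) :
    J(m | p) = J(-3 | m) := by
  have h1 : J(p | m) = J(m | p) :=
    jacobiSym.quadratic_reciprocity_one_mod_four hp (Nat.odd_iff.2 hm)
  rw [← h1]
  apply jacobiSym.mod_left'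
  apply Int.ModEq.symm
  rw [Int.modEq_iff_dvd]
  simpa using h

theorem jac_two {p : ℕ} (hp : p % 8 = 5) : J(2 | p) = -1 := by
  rw [jacobiSym.at_two (Nat.odd_iff.2 (by omega))]
  have : ((p : ℕ) : ZMod 8) = 5 := by
    have : p = 5 + 8 * (p / 8) := by omega
    rw [this]
    push_cast
    have h8 : (8 : ZMod 8) = 0 := by decide
    rw [h8]
    ring
  rw [this]
  decide

theorem jac_neg {p : ℕ} (hp : p % 8 = 5) (a : ℤ) : J(-a | p) = J(a | p) := by
  rw [jacobiSym.neg a (Nat.odd_iff.2 (by omega)), ZMod.χ₄_nat_one_mod_four (by omega), one_mul]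

theorem exists_root {p : ℕ} (hp : p.Prime) {c : ℤ} (h : J(c | p) = 1) :
    ∃ a d : ℤ, a ^ 2 - c = p * d := by
  haveI : Fact p.Prime := ⟨hp⟩
  obtain ⟨r, hr⟩ := ZMod.isSquare_of_jacobiSym_eq_one h
  obtain ⟨a, rfl⟩ := ZMod.intCast_surjective r
  have h1 : ((a ^ 2 - c : ℤ) : ZMod p) = 0 := by
    push_cast
    rw [hr]
    ring
  obtain ⟨d, hd⟩ := (ZMod.intCast_zmod_eq_zero_iff_dvd _ _).1 h1
  exact ⟨a, d, hd⟩

/-- `N` is a value of `a² + b² + 3c²`. -/
def Rep (N : ℤ) : Prop := ∃ a b c : ℤ, N = a ^ 2 + b ^ 2 + 3 * c ^ 2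

/-- the construction in the case `3 ∤ N` -/
theorem rep_of_prime {N b : ℤ} {p : ℕ} (hp : p.Prime) (hp8 : p % 8 = 5)
    (hN : 0 < N) (hb : 0 < b) (hpN : (p : ℤ) = b * N - 3) (hJ : J(b | p) = 1) : Rep N := by
  obtain ⟨a, d, had⟩ := exists_root hp (c := -b) (by rw [jac_neg hp8, hJ])
  have hp0 : (0 : ℤ) < p := by exact_mod_cast hp.pos
  have hd0 : 0 < d := by
    have : 0 < (p : ℤ) * d := by
      rw [← had]
      nlinarith [sq_nonneg a]
    exact (mul_pos_iff_of_pos_left hp0).1 this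
  let G : Matrix (Fin 3) (Fin 3) ℤ := !![d, a, 1; a, p, 0; 1, 0, N]
  have hG : Gᵀ = G := by
    ext i j
    fin_cases i <;> fin_cases j <;> simp [G]
  have hdet : G.det = 3 := by
    rw [Matrix.det_fin_three]
    simp only [G]
    simp
    linear_combination (-N) * had + (-1 : ℤ) * hpN
  have hminor : G 0 0 * G 1 1 - G 0 1 ^ 2 = b := by
    simp only [G]
    simp
    linear_combination (-1 : ℤ) * had
  have hpos := posdef_of_minors G hG hd0 (by rw [hminor]; exact hb) (by rw [hdet]; norm_num)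
  obtain ⟨Y, hY⟩ := equi_diag G hG hpos hdet (u := 0) (v := 1) (w := 0) (by
    simp [q, G]
    omega)
  have h22 := hY 2 2
  have : G 2 2 = N := by simp [G]
  rw [this] at h22
  exact ⟨Y 0 2, Y 1 2, Y 2 2, by rw [h22]; ring⟩

/-- the construction in the case `N = 3N'` -/
theorem rep_of_prime' {N f : ℤ} {p : ℕ} (hp : p.Prime) (hp8 : p % 8 = 5)
    (hN : 0 < N) (hf : 0 < f) (hpN : (p : ℤ) = f * N - 3) (hJ : J(N | p) = 1) : Rep (3 * N) := by
  obtain ⟨b, d, had⟩ := exists_root hp (c := -N) (by rw [jac_neg hp8, hJ])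
  have hp0 : (0 : ℤ) < p := by exact_mod_cast hp.pos
  have hd0 : 0 < d := by
    have : 0 < (p : ℤ) * d := by
      rw [← had]
      nlinarith [sq_nonneg b]
    exact (mul_pos_iff_of_pos_left hp0).1 this
  let G : Matrix (Fin 3) (Fin 3) ℤ := !![p, b, 0; b, d, 1; 0, 1, f]
  have hG : Gᵀ = G := by
    ext i j
    fin_cases i <;> fin_cases j <;> simp [G]
  have hdet : G.det = 3 := by
    rw [Matrix.det_fin_three]
    simp only [G]
    simp
    linear_combination (-f) * had + (-1 : ℤ) * hpN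
  have hminor : G 0 0 * G 1 1 - G 0 1 ^ 2 = N := by
    simp only [G]
    simp
    linear_combination (-1 : ℤ) * had
  have hpos := posdef_of_minors G hG hp0 (by rw [hminor]; exact hN) (by rw [hdet]; norm_num)
  obtain ⟨Y, hY⟩ := equi_diag G hG hpos hdet (u := 1) (v := 0) (w := 0) (by
    simp [q, G]
    omega)
  rw [hY 0 0, hY 1 1, hY 0 1] at hminor
  refine ⟨3 * (Y 0 0 * Y 2 1 - Y 2 0 * Y 0 1), 3 * (Y 1 0 * Y 2 1 - Y 2 0 * Y 1 1),
    Y 0 0 * Y 1 1 - Y 1 0 * Y 0 1, ?_⟩
  rw [← hminor]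
  ring

theorem coprime_aux {c M : ℕ} (h : ∀ r : ℕ, r.Prime → r ∣ c → r ∣ M → False) : c.Coprime M := by
  rw [Nat.coprime_iff_gcd_eq_one]
  by_contra hne
  obtain ⟨r, hr, hr'⟩ := Nat.exists_prime_and_dvd hne
  exact h r hr (hr'.trans (Nat.gcd_dvd_left _ _)) (hr'.trans (Nat.gcd_dvd_right _ _))

theorem prime_dvd_48 {r : ℕ} (hr : r.Prime) (h : r ∣ 48) : r = 2 ∨ r = 3 := by
  have : r ∣ 2 ^ 4 * 3 := by norm_num; exact h
  rcases (Nat.Prime.dvd_mul hr).1 this with h | h
  · left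
    exact (Nat.prime_dvd_prime_iff_eq hr Nat.prime_two).1 (hr.dvd_of_dvd_pow h)
  · right
    exact (Nat.prime_dvd_prime_iff_eq hr Nat.prime_three).1 h

/-- case `3 ∤ N`, `4 ∤ N` -/
theorem rep_coprime {N : ℕ} (hN : 0 < N) (h3 : N % 3 ≠ 0) (h4 : N % 4 ≠ 0) : Rep N := by
  rcases Nat.even_or_odd N with he | ho
  · -- `N = 2 mod 4`, `b = 4 b1`, `b1 = 1 mod 6`
    obtain ⟨p, m, hp, hpm⟩ := dirichlet (24 * N) (4 * N - 3) (by omega) (by
      apply coprime_aux
      intro r hr h1 h2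
      have hrN : ¬ r ∣ N := by
        intro h
        have h5 : r ∣ 3 := by
          have : 3 = 4 * N - (4 * N - 3) := by omega
          rw [this]
          exact Nat.dvd_sub (dvd_mul_of_dvd_right h 4) h1
        have h6 : r = 3 := (Nat.prime_dvd_prime_iff_eq hr Nat.prime_three).1 h5
        subst h6
        omega
      have h7 : r ∣ 24 := by
        rcases (Nat.Prime.dvd_mul hr).1 h2 with h | h
        · exact h
        · exact absurd h hrN
      rcases prime_dvd_48 hr (h7.trans (by norm_num)) with h | h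
      · subst h
        omega
      · subst h
        omega)
    have hN2 : N % 4 = 2 := by
      obtain ⟨k, hk⟩ := he
      omega
    have hcast : (p : ℤ) = 4 * (1 + 6 * m) * N - 3 := by
      rw [hpm]
      push_cast [Nat.cast_sub (by omega : 3 ≤ 4 * N)]
      ring
    have hp8 : p % 8 = 5 := by
      obtain ⟨k, hk⟩ : ∃ k, N = 2 * k := ⟨N / 2, by omega⟩
      have h8 : (p : ℤ) = 8 * ((1 + 6 * m) * k) - 3 := by
        rw [hcast, hk]
        push_cast
        ring
      omega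
    refine rep_of_prime hp hp8 (b := 4 * (1 + 6 * (m : ℤ))) (by exact_mod_cast hN)
      (by positivity) hcast ?_
    rw [jacobiSym.mul_left, jacobiSym.at_four (Nat.odd_iff.2 (by omega)), one_mul]
    have h5 : J(((1 + 6 * m : ℕ) : ℤ) | p) = J(-3 | 1 + 6 * m) :=
      jac_rec (by omega) (by omega) (by
        rw [hcast]
        push_cast
        exact ⟨4 * N, by ring⟩)
    rw [(jac3 (m := 1 + 6 * m) (by omega)).1 (by omega)] at h5
    exact_mod_cast h5
  · -- `N` odd, `b = 8 b1`, `b1 = 5 mod 6`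
    obtain ⟨p, m, hp, hpm⟩ := dirichlet (48 * N) (40 * N - 3) (by omega) (by
      apply coprime_aux
      intro r hr h1 h2
      have hrN : ¬ r ∣ N := by
        intro h
        have h5 : r ∣ 3 := by
          have : 3 = 40 * N - (40 * N - 3) := by omega
          rw [this]
          exact Nat.dvd_sub (dvd_mul_of_dvd_right h 40) h1
        have h6 : r = 3 := (Nat.prime_dvd_prime_iff_eq hr Nat.prime_three).1 h5
        subst h6
        omega
      have h7 : r ∣ 48 := by
        rcases (Nat.Prime.dvd_mul hr).1 h2 with h | h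
        · exact h
        · exact absurd h hrN
      rcases prime_dvd_48 hr h7 with h | h
      · subst h
        omega
      · subst h
        omega)
    have hcast : (p : ℤ) = 8 * (5 + 6 * m) * N - 3 := by
      rw [hpm]
      push_cast [Nat.cast_sub (by omega : 3 ≤ 40 * N)]
      ring
    have hp8 : p % 8 = 5 := by
      have h8 : (p : ℤ) = 8 * ((5 + 6 * m) * N) - 3 := by
        rw [hcast]
        ring
      omega
    refine rep_of_prime hp hp8 (b := 8 * (5 + 6 * (m : ℤ))) (by exact_mod_cast hN)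
      (by positivity) hcast ?_
    have h8 : J(8 | p) = -1 := by
      have : (8 : ℤ) = 2 ^ 3 := by norm_num
      rw [this, jacobiSym.pow_left, jac_two hp8]
      norm_num
    rw [jacobiSym.mul_left, h8]
    have h5 : J(((5 + 6 * m : ℕ) : ℤ) | p) = J(-3 | 5 + 6 * m) :=
      jac_rec (by omega) (by omega) (by
        rw [hcast]
        push_cast
        exact ⟨8 * N, by ring⟩)
    rw [(jac3 (m := 5 + 6 * m) (by omega)).2 (by omega)] at h5
    have h6 : J((5 + 6 * (m : ℤ)) | p) = -1 := by exact_mod_cast h5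
    rw [h6]
    norm_num

/-- case `N = 3N'`, `N' = 1 mod 3`, `4 ∤ N'` -/
theorem rep_three {N : ℕ} (h3 : N % 3 = 1) (h4 : N % 4 ≠ 0) : Rep (3 * N) := by
  have hN : 0 < N := by omega
  have hdvd : ∀ r : ℕ, r.Prime → ∀ k : ℕ, 3 ≤ k * N → r ∣ k * N - 3 → ¬ r ∣ N := by
    intro r hr k hk h1 h
    have h5 : r ∣ 3 := by
      have : 3 = k * N - (k * N - 3) := by omega
      rw [this]
      exact Nat.dvd_sub (dvd_mul_of_dvd_right h k) h1
    have h6 : r = 3 := (Nat.prime_dvd_prime_iff_eq hr Nat.prime_three).1 h5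
    subst h6
    omega
  have h8r : ∀ r : ℕ, r.Prime → r ∣ 8 → r = 2 := by
    intro r hr h
    have : r ∣ 2 ^ 3 := by norm_num; exact h
    exact (Nat.prime_dvd_prime_iff_eq hr Nat.prime_two).1 (hr.dvd_of_dvd_pow this)
  rcases Nat.even_or_odd N with he | ho
  · have hN2 : N % 4 = 2 := by
      obtain ⟨k, hk⟩ := he
      omega
    obtain ⟨p, m, hp, hpm⟩ := dirichlet (8 * N) (4 * N - 3) (by omega) (by
      apply coprime_aux
      intro r hr h1 h2
      have hrN := hdvd r hr 4 (by omega) h1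
      rcases (Nat.Prime.dvd_mul hr).1 h2 with h | h
      · have := h8r r hr h
        subst this
        omega
      · exact absurd h hrN)
    have hcast : (p : ℤ) = 4 * (1 + 2 * m) * N - 3 := by
      rw [hpm]
      push_cast [Nat.cast_sub (by omega : 3 ≤ 4 * N)]
      ring
    obtain ⟨k, hk⟩ : ∃ k, N = 2 * k := ⟨N / 2, by omega⟩
    have hp8 : p % 8 = 5 := by
      have h8 : (p : ℤ) = 8 * ((1 + 2 * m) * k) - 3 := by
        rw [hcast, hk]
        push_cast
        ring
      omega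
    refine rep_of_prime' hp hp8 (f := 4 * (1 + 2 * (m : ℤ))) (by exact_mod_cast hN)
      (by positivity) hcast ?_
    have h5 : J((k : ℤ) | p) = J(-3 | k) :=
      jac_rec (by omega) (by omega) (by
        rw [hcast, hk]
        push_cast
        exact ⟨8 * (1 + 2 * m), by ring⟩)
    rw [(jac3 (m := k) (by omega)).2 (by omega)] at h5
    rw [hk]
    push_cast
    rw [jacobiSym.mul_left, jac_two hp8, h5]
    norm_num
  · obtain ⟨p, m, hp, hpm⟩ := dirichlet (8 * N) (8 * N - 3) (by omega) (by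
      apply coprime_aux
      intro r hr h1 h2
      have hrN := hdvd r hr 8 (by omega) h1
      rcases (Nat.Prime.dvd_mul hr).1 h2 with h | h
      · have := h8r r hr h
        subst this
        omega
      · exact absurd h hrN)
    have hcast : (p : ℤ) = 8 * (1 + m) * N - 3 := by
      rw [hpm]
      push_cast [Nat.cast_sub (by omega : 3 ≤ 8 * N)]
      ring
    have hp8 : p % 8 = 5 := by
      have h8 : (p : ℤ) = 8 * ((1 + m) * N) - 3 := by
        rw [hcast]
        ring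
      omega
    refine rep_of_prime' hp hp8 (f := 8 * (1 + (m : ℤ))) (by exact_mod_cast hN)
      (by positivity) hcast ?_
    have h5 : J((N : ℤ) | p) = J(-3 | N) :=
      jac_rec (by omega) (Nat.odd_iff.1 ho) (by
        rw [hcast]
        exact ⟨8 * (1 + m), by ring⟩)
    rw [h5]
    exact (jac3 (Nat.odd_iff.1 ho)).1 h3

/-- `N` is exceptional -/
def Exc (N : ℕ) : Prop := ∃ k t : ℕ, N = 9 ^ k * (9 * t + 6)

theorem rep_all {N : ℕ} (hN : 0 < N) (h4 : N % 4 ≠ 0) (hE : ¬ Exc N) : Rep N := by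
  induction N using Nat.strong_induction_on with
  | _ N ih =>
    by_cases h3 : N % 3 = 0
    · by_cases h9 : N % 9 = 0
      · obtain ⟨M, hM⟩ : ∃ M, N = 9 * M := ⟨N / 9, by omega⟩
        have hr := ih M (by omega) (by omega) (by omega) (by
          rintro ⟨k, t, hkt⟩
          exact hE ⟨k + 1, t, by rw [hM, hkt, pow_succ]; ring⟩)
        obtain ⟨a, b, c, h⟩ := hr
        refine ⟨3 * a, 3 * b, 3 * c, ?_⟩
        rw [hM]
        push_cast
        rw [h]
        ring
      · have h6 : N % 9 ≠ 6 := by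
          intro h
          exact hE ⟨0, N / 9, by rw [pow_zero, one_mul]; omega⟩
        obtain ⟨M, hM⟩ : ∃ M, N = 3 * M := ⟨N / 3, by omega⟩
        have hr := rep_three (N := M) (by omega) (by omega)
        rw [hM]
        push_cast
        exact hr
    · exact rep_coprime hN h3 h4

/-- step 1 -/
theorem step_one {N : ℤ} {a b c : ℤ} (h : N = a ^ 2 + b ^ 2 + 3 * c ^ 2)
    (hpar : ¬ (a % 2 = c % 2 ∧ b % 2 = c % 2)) :
    ∃ u v z : ℤ, z % 2 = 1 ∧ 4 * N = u ^ 2 + v ^ 2 + 3 * z ^ 2 := by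
  by_cases hb : b % 2 = c % 2
  · have ha : a % 2 ≠ c % 2 := fun h => hpar ⟨h, hb⟩
    exact ⟨2 * b, a + 3 * c, a - c, by omega, by rw [h]; ring⟩
  · exact ⟨2 * a, b + 3 * c, b - c, by omega, by rw [h]; ring⟩

theorem step_one' {N : ℤ} {a b c : ℤ} (h : N = a ^ 2 + b ^ 2 + 3 * c ^ 2)
    (hpar : ¬ (a % 2 = 0 ∧ b % 2 = 0 ∧ c % 2 = 0)) :
    ∃ u v z : ℤ, z % 2 = 1 ∧ 4 * N = u ^ 2 + v ^ 2 + 3 * z ^ 2 := by
  by_cases hodd : a % 2 = c % 2 ∧ b % 2 = c % 2
  · have hc : c % 2 = 1 := by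
      rcases Int.emod_two_eq_zero_or_one c with h0 | h1
      · exfalso
        apply hpar
        rw [h0] at hodd
        exact ⟨hodd.1, hodd.2, h0⟩
      · exact h1
    have hb : b % 2 = 1 := by omega
    have ha : a % 2 = 1 := by omega
    -- choose the sign of `c`
    obtain ⟨c', hc', hc2⟩ : ∃ c' : ℤ, c' ^ 2 = c ^ 2 ∧ (b - c') % 4 = 0 := by
      by_cases h4 : (b - c) % 4 = 0
      · exact ⟨c, rfl, h4⟩
      · exact ⟨-c, by ring, by omega⟩
    have hc'2 : c' % 2 = 1 := by omega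
    obtain ⟨e, he⟩ : ∃ e, b - c' = 4 * e := ⟨(b - c') / 4, by omega⟩
    have hb' : b = c' + 4 * e := by linarith
    refine step_one (a := a) (b := 2 * (c' + e)) (c := 2 * e) ?_ ?_
    · rw [h, ← hc', hb']
      ring
    · rintro ⟨h1, -⟩
      omega
  · exact step_one h hodd

theorem main_rep {N : ℕ} (hN : 0 < N) (hE : ¬ Exc N) :
    ∃ u v z : ℤ, z % 2 = 1 ∧ 4 * (N : ℤ) = u ^ 2 + v ^ 2 + 3 * z ^ 2 := by
  induction N using Nat.strong_induction_on with
  | _ N ih =>
    by_cases h4 : N % 4 = 0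
    · obtain ⟨M, hM⟩ : ∃ M, N = 4 * M := ⟨N / 4, by omega⟩
      obtain ⟨u, v, z, hz, h⟩ := ih M (by omega) (by omega) (by
        rintro ⟨k, t, hkt⟩
        exact hE ⟨k, 4 * t + 2, by rw [hM, hkt]; ring⟩)
      have h' : (N : ℤ) = u ^ 2 + v ^ 2 + 3 * z ^ 2 := by
        rw [hM]
        push_cast
        exact h
      exact step_one' h' (by omega)
    · obtain ⟨a, b, c, h⟩ := rep_all hN h4 hE
      refine step_one' h ?_
      rintro ⟨ha, hb, hc⟩
      obtain ⟨a', rfl⟩ : ∃ a', a = 2 * a' := ⟨a / 2, by omega⟩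
      obtain ⟨b', rfl⟩ : ∃ b', b = 2 * b' := ⟨b / 2, by omega⟩
      obtain ⟨c', rfl⟩ : ∃ c', c = 2 * c' := ⟨c / 2, by omega⟩
      have : (N : ℤ) = 4 * (a' ^ 2 + b' ^ 2 + 3 * c' ^ 2) := by rw [h]; ring
      omega

end Pool.Agent.R745.Tri
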