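import Mathlib
import Pool.Agent.H132.Ternary

/-!
# Positive definite integral ternary forms of determinant 3

A positive definite integral symmetric `3 × 3` matrix of determinant `3` whose form takes a value
congruent to `5` modulo `8` is integrally equivalent to `diag(1,1,3)`.
-/

set_option autoImplicit false

open Matrix

namespace Pool.Agent.R745.Tri

open Pool.Agent.H132.Ternary

/-- Hermite's bound for ternary forms. -/
theorem hermite' (G : Matrix (Fin 3) (Fin 3) ℤ) (hG : Gᵀ = G)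
    (hpos : ∀ u v w : ℤ, (u ≠ 0 ∨ v ≠ 0 ∨ w ≠ 0) → 0 < q G u v w) :
    ∃ G' : Matrix (Fin 3) (Fin 3) ℤ, Equi G G' ∧ 0 < G' 0 0 ∧
      27 * (G' 0 0) ^ 3 ≤ 64 * G.det := by
  classical
  -- minimise the first entry
  have hpos' : ∀ G', Equi G G' → 0 < G' 0 0 := by
    intro G' h
    obtain ⟨u, v, w, h1, h2⟩ := h.entry hG
    rw [h2]; exact hpos u v w h1
  have hself : Equi G G := ⟨1, by simp, by simp⟩
  obtain ⟨a, ⟨⟩, hamin⟩ : ∃ a : ℕ, (∃ G', Equi G G' ∧ G' 0 0 = a) ∧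
      ∀ b : ℕ, (∃ G', Equi G G' ∧ G' 0 0 = b) → a ≤ b := by
    have hex : ∃ a : ℕ, ∃ G', Equi G G' ∧ G' 0 0 = a :=
      ⟨(G 0 0).toNat, G, hself, by rw [Int.toNat_of_nonneg (hpos' G hself).le]⟩
    exact ⟨Nat.find hex, Nat.find_spec hex, fun b hb => Nat.find_min' hex hb⟩
  rename_i G1 hG1
  have hmin : ∀ G', Equi G G' → (a : ℤ) ≤ G' 0 0 := by
    intro G' h
    have h1 := hamin (G' 0 0).toNat ⟨G', h, by rw [Int.toNat_of_nonneg (hpos' G' h).le]⟩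
    have h2 := hpos' G' h
    omega
  have ha0 : (0 : ℤ) < a := by rw [← hG1.2]; exact hpos' _ hG1.1
  -- entries of a transformed matrix
  have hswap : ∀ (G' : Matrix (Fin 3) (Fin 3) ℤ) (j : ℤ), Equi G G' →
      ∃ G'', Equi G G'' ∧ G'' 0 0 = G' 1 1 + 2 * j * G' 0 1 + j ^ 2 * G' 0 0 := by
    intro G' j h
    refine ⟨_, h.trans (E := !![j, -1, 0; 1, 0, 0; 0, 0, 1]) (by simp [Matrix.det_fin_three]), ?_⟩
    have h10 : G' 1 0 = G' 0 1 := by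
      have := congrFun (congrFun (h.symm' hG) 0) 1; simpa using this
    simp [Matrix.mul_apply, Fin.sum_univ_three, h10]
    ring
  have hQ : ∀ G', Equi G G' → G' 0 0 = a → 3 * (a : ℤ) ^ 2 ≤ 4 * (G' 0 0 * G' 1 1 - G' 0 1 ^ 2) := by
    intro G' h haa
    obtain ⟨j, hj⟩ := exists_round (G' 0 1) a ha0
    obtain ⟨G'', h1, h2⟩ := hswap G' j h
    have h3 := hmin G'' h1
    rw [h2, haa] at h3
    rw [haa]
    have h4 : (a : ℤ) * a ≤ a * (G' 1 1 + 2 * j * G' 0 1 + j ^ 2 * a) :=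
      mul_le_mul_of_nonneg_left h3 ha0.le
    nlinarith
  obtain ⟨Δ, ⟨G2, hG2, hG2a, hG2Δ⟩, hΔmin⟩ : ∃ Δ : ℕ,
      (∃ G', Equi G G' ∧ G' 0 0 = a ∧ G' 0 0 * G' 1 1 - G' 0 1 ^ 2 = Δ) ∧
      ∀ b : ℕ, (∃ G', Equi G G' ∧ G' 0 0 = a ∧ G' 0 0 * G' 1 1 - G' 0 1 ^ 2 = b) → Δ ≤ b := by
    have hex : ∃ Δ : ℕ, ∃ G', Equi G G' ∧ G' 0 0 = a ∧ G' 0 0 * G' 1 1 - G' 0 1 ^ 2 = Δ := by
      refine ⟨(G1 0 0 * G1 1 1 - G1 0 1 ^ 2).toNat, G1, hG1.1, hG1.2, ?_⟩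
      rw [Int.toNat_of_nonneg]
      have := hQ G1 hG1.1 hG1.2
      nlinarith [sq_nonneg (a : ℤ)]
    exact ⟨Nat.find hex, Nat.find_spec hex, fun b hb => Nat.find_min' hex hb⟩
  have hΔ : 3 * (a : ℤ) ^ 2 ≤ 4 * Δ := by
    have := hQ G2 hG2 hG2a
    rw [hG2Δ] at this; exact this
  have hΔ0 : (0 : ℤ) < Δ := by nlinarith [sq_nonneg (a : ℤ), mul_pos ha0 ha0]
  have hs10 : G2 1 0 = G2 0 1 := by
    have := congrFun (congrFun (hG2.symm' hG) 0) 1; simpa using this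
  have hs20 : G2 2 0 = G2 0 2 := by
    have := congrFun (congrFun (hG2.symm' hG) 0) 2; simpa using this
  have hs21 : G2 2 1 = G2 1 2 := by
    have := congrFun (congrFun (hG2.symm' hG) 1) 2; simpa using this
  -- the projected form
  set F22 := G2 0 0 * G2 1 1 - G2 0 1 ^ 2 with hF22
  set F33 := G2 0 0 * G2 2 2 - G2 0 2 ^ 2 with hF33
  set F23 := G2 0 0 * G2 1 2 - G2 0 1 * G2 0 2 with hF23
  have hdet : F22 * F33 - F23 ^ 2 = a * G.det := by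
    rw [← hG2.det_eq, Matrix.det_fin_three, hs10, hs20, hs21, ← hG2a, hF22, hF33, hF23]
    ring
  obtain ⟨j, hj⟩ := exists_round F23 Δ hΔ0
  have h5 : (Δ : ℤ) ≤ F33 + 2 * j * F23 + j ^ 2 * F22 := by
    have hE : (!![1, 0, 0; 0, j, -1; 0, 1, 0] : Matrix (Fin 3) (Fin 3) ℤ).det = 1 := by
      simp [Matrix.det_fin_three]
    have h6 := hG2.trans hE
    set G3 := (!![1, 0, 0; 0, j, -1; 0, 1, 0] : Matrix (Fin 3) (Fin 3) ℤ)ᵀ * G2 *
      !![1, 0, 0; 0, j, -1; 0, 1, 0] with hG3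
    have e00 : G3 0 0 = a := by
      rw [hG3, ← hG2a]; simp [Matrix.mul_apply, Fin.sum_univ_three]
    have e11 : G3 1 1 = G2 2 2 + 2 * j * G2 1 2 + j ^ 2 * G2 1 1 := by
      rw [hG3]; simp [Matrix.mul_apply, Fin.sum_univ_three, hs21]; ring
    have e01 : G3 0 1 = G2 0 2 + j * G2 0 1 := by
      rw [hG3]; simp [Matrix.mul_apply, Fin.sum_univ_three]; ring
    have h7 : G3 0 0 * G3 1 1 - G3 0 1 ^ 2 = F33 + 2 * j * F23 + j ^ 2 * F22 := by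
      rw [e00, e11, e01, hF22, hF33, hF23, hG2a]; ring
    have h8 := hQ G3 h6 e00
    have h9 : 0 ≤ G3 0 0 * G3 1 1 - G3 0 1 ^ 2 := by nlinarith [sq_nonneg (a : ℤ)]
    have h10 := hΔmin (G3 0 0 * G3 1 1 - G3 0 1 ^ 2).toNat
      ⟨G3, h6, e00, by rw [Int.toNat_of_nonneg h9]⟩
    rw [← h7]; omega
  have h6 : 3 * (Δ : ℤ) ^ 2 ≤ 4 * (a * G.det) := by
    rw [← hdet, hG2Δ]
    rw [hG2Δ] at h5
    have h4 : (Δ : ℤ) * Δ ≤ Δ * (F33 + 2 * j * F23 + j ^ 2 * Δ) :=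
      mul_le_mul_of_nonneg_left h5 hΔ0.le
    nlinarith
  refine ⟨G1, hG1.1, hpos' _ hG1.1, ?_⟩
  rw [hG1.2]
  -- 3 * 9 a^4 <= 3 * 16 Δ^2 <= 64 a det
  have h9 : 9 * (a : ℤ) ^ 4 ≤ 16 * Δ ^ 2 := by
    have : (3 * (a : ℤ) ^ 2) ^ 2 ≤ (4 * Δ) ^ 2 := pow_le_pow_left₀ (by positivity) hΔ 2
    nlinarith
  have h10 : (a : ℤ) * (27 * a ^ 3) ≤ a * (64 * G.det) := by nlinarith
  exact le_of_mul_le_mul_left h10 ha0


theorem sym_entries {G : Matrix (Fin 3) (Fin 3) ℤ} (h : Gᵀ = G) :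
    G 1 0 = G 0 1 ∧ G 2 0 = G 0 2 ∧ G 2 1 = G 1 2 := by
  refine ⟨?_, ?_, ?_⟩
  · have := congrFun (congrFun h 0) 1; simpa using this
  · have := congrFun (congrFun h 0) 2; simpa using this
  · have := congrFun (congrFun h 1) 2; simpa using this

/-- a form of determinant `3` splits off a vector of norm `1` -/
theorem split_one (G : Matrix (Fin 3) (Fin 3) ℤ) (hG : Gᵀ = G)
    (hpos : ∀ u v w : ℤ, (u ≠ 0 ∨ v ≠ 0 ∨ w ≠ 0) → 0 < q G u v w) (hdet : G.det = 3) :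
    ∃ G' : Matrix (Fin 3) (Fin 3) ℤ, Equi G G' ∧ G' 0 0 = 1 ∧ G' 0 1 = 0 ∧ G' 0 2 = 0 := by
  obtain ⟨G1, h1, h2, h3⟩ := hermite' G hG hpos
  have h4 : G1 0 0 = 1 := by
    rw [hdet] at h3
    have : G1 0 0 < 2 := by
      by_contra hcon
      push Not at hcon
      have : 2 ^ 3 ≤ (G1 0 0) ^ 3 := pow_le_pow_left₀ (by norm_num) hcon 3
      omega
    omega
  refine ⟨_, h1.trans (E := !![1, -G1 0 1, -G1 0 2; 0, 1, 0; 0, 0, 1])
    (by simp [Matrix.det_fin_three]), ?_, ?_, ?_⟩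
  · simp [Matrix.mul_apply, Fin.sum_univ_three, h4]
  · simp [Matrix.mul_apply, Fin.sum_univ_three, h4]
  · simp [Matrix.mul_apply, Fin.sum_univ_three, h4]

theorem equi_pos11 {G G' : Matrix (Fin 3) (Fin 3) ℤ} (hG : Gᵀ = G)
    (hpos : ∀ u v w : ℤ, (u ≠ 0 ∨ v ≠ 0 ∨ w ≠ 0) → 0 < q G u v w) (h : Equi G G') :
    0 < G' 1 1 := by
  have h1 := h.trans (E := !![0, -1, 0; 1, 0, 0; 0, 0, 1]) (by simp [Matrix.det_fin_three])
  obtain ⟨u, v, w, h2, h3⟩ := h1.entry hG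
  simp [Matrix.mul_apply, Fin.sum_univ_three] at h3
  rw [h3]
  exact hpos u v w h2

/-- reduction of the form -/
theorem reduce (G : Matrix (Fin 3) (Fin 3) ℤ) (hG : Gᵀ = G)
    (hpos : ∀ u v w : ℤ, (u ≠ 0 ∨ v ≠ 0 ∨ w ≠ 0) → 0 < q G u v w) (hdet : G.det = 3) :
    ∃ G' : Matrix (Fin 3) (Fin 3) ℤ, Equi G G' ∧ G' 0 0 = 1 ∧ G' 0 1 = 0 ∧ G' 0 2 = 0 ∧
      ((G' 1 1 = 1 ∧ G' 1 2 = 0 ∧ G' 2 2 = 3) ∨
        (G' 1 1 = 2 ∧ (G' 1 2 = 1 ∨ G' 1 2 = -1) ∧ G' 2 2 = 2)) := by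
  classical
  obtain ⟨G0, k1, k2, k3, k4⟩ := split_one G hG hpos hdet
  let P : ℕ → Prop := fun a => ∃ G' : Matrix (Fin 3) (Fin 3) ℤ, Equi G G' ∧ G' 0 0 = 1 ∧
    G' 0 1 = 0 ∧ G' 0 2 = 0 ∧ G' 1 1 = a
  have hex : ∃ a, P a := ⟨(G0 1 1).toNat, G0, k1, k2, k3, k4, by
    rw [Int.toNat_of_nonneg (equi_pos11 hG hpos k1).le]⟩
  obtain ⟨G1, e1, e2, e3, e4, e5⟩ := Nat.find_spec hex
  set a := Nat.find hex with ha
  have hmin : ∀ G' : Matrix (Fin 3) (Fin 3) ℤ, Equi G G' → G' 0 0 = 1 → G' 0 1 = 0 → G' 0 2 = 0 →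
      (a : ℤ) ≤ G' 1 1 := by
    intro G' f1 f2 f3 f4
    have h0 := equi_pos11 hG hpos f1
    have := Nat.find_min' hex (m := (G' 1 1).toNat) ⟨G', f1, f2, f3, f4, by
      rw [Int.toNat_of_nonneg h0.le]⟩
    omega
  have ha0 : (0 : ℤ) < a := by rw [← e5]; exact equi_pos11 hG hpos e1
  obtain ⟨s1, s2, s3⟩ := sym_entries (e1.symm' hG)
  obtain ⟨j, hj⟩ := exists_round (G1 1 2) a ha0
  -- translate
  have t1 := e1.trans (E := !![1, 0, 0; 0, 1, j; 0, 0, 1]) (by simp [Matrix.det_fin_three])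
  set G2 := (!![1, 0, 0; 0, 1, j; 0, 0, 1] : Matrix (Fin 3) (Fin 3) ℤ)ᵀ * G1 *
    !![1, 0, 0; 0, 1, j; 0, 0, 1] with hG2
  have g00 : G2 0 0 = 1 := by
    rw [hG2]; simp [Matrix.mul_apply, Fin.sum_univ_three, e2]
  have g01 : G2 0 1 = 0 := by
    rw [hG2]; simp [Matrix.mul_apply, Fin.sum_univ_three, e3]
  have g02 : G2 0 2 = 0 := by
    rw [hG2]; simp [Matrix.mul_apply, Fin.sum_univ_three, e3, e4]
  have g11 : G2 1 1 = a := by
    rw [hG2]; simp [Matrix.mul_apply, Fin.sum_univ_three, e5]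
  have g12 : G2 1 2 = G1 1 2 + j * a := by
    rw [hG2]; simp [Matrix.mul_apply, Fin.sum_univ_three, e5]; ring
  obtain ⟨r1, r2, r3⟩ := sym_entries (t1.symm' hG)
  have hd : G2 1 1 * G2 2 2 - G2 1 2 ^ 2 = 3 := by
    have := t1.det_eq
    rw [hdet, Matrix.det_fin_three, r1, r2, r3, g00, g01, g02] at this
    linarith
  -- swap
  have h22 : (a : ℤ) ≤ G2 2 2 := by
    have t2 := t1.trans (E := !![1, 0, 0; 0, 0, -1; 0, 1, 0]) (by simp [Matrix.det_fin_three])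
    have := hmin _ t2 ?_ ?_ ?_
    · simpa [Matrix.mul_apply, Fin.sum_univ_three] using this
    · simp [Matrix.mul_apply, Fin.sum_univ_three, g00]
    · simp [Matrix.mul_apply, Fin.sum_univ_three, g02]
    · simp [Matrix.mul_apply, Fin.sum_univ_three, g01]
  rw [← g12] at hj
  rw [g11] at hd
  have ha2 : (a : ℤ) ≤ 2 := by
    by_contra hcon
    push Not at hcon
    have h5 : (a : ℤ) * a ≤ a * G2 2 2 := mul_le_mul_of_nonneg_left h22 ha0.le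
    nlinarith
  refine ⟨G2, t1, g00, g01, g02, ?_⟩
  have h12 : (a : ℤ) = 1 ∨ (a : ℤ) = 2 := by omega
  rcases h12 with h | h
  · left
    rw [h] at hj hd g11
    have hb : G2 1 2 = 0 := by
      by_contra hne
      have : 1 ≤ G2 1 2 ^ 2 := by
        have := sq_nonneg (G2 1 2)
        have h' : G2 1 2 ^ 2 ≠ 0 := pow_ne_zero 2 hne
        omega
      omega
    rw [hb] at hd
    exact ⟨g11, hb, by linarith⟩
  · right
    rw [h] at hj hd g11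
    have hb1 : G2 1 2 ≤ 1 := by nlinarith
    have hb2 : -1 ≤ G2 1 2 := by nlinarith
    have : G2 1 2 = 0 ∨ G2 1 2 = 1 ∨ G2 1 2 = -1 := by omega
    rcases this with hb | hb | hb
    · rw [hb] at hd
      omega
    · rw [hb] at hd
      exact ⟨g11, Or.inl hb, by linarith⟩
    · rw [hb] at hd
      exact ⟨g11, Or.inr hb, by linarith⟩

theorem equi_inv {G G' : Matrix (Fin 3) (Fin 3) ℤ} (h : Equi G G') :
    ∃ Y : Matrix (Fin 3) (Fin 3) ℤ, G = Yᵀ * G' * Y := by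
  obtain ⟨X, hX, rfl⟩ := h
  refine ⟨X.adjugate, ?_⟩
  have h1 : X * X.adjugate = 1 := by rw [Matrix.mul_adjugate, hX, one_smul]
  have h2 : X.adjugateᵀ * Xᵀ = 1 := by rw [← Matrix.transpose_mul, h1, Matrix.transpose_one]
  calc G = (1 : Matrix (Fin 3) (Fin 3) ℤ) * G * 1 := by simp
    _ = (X.adjugateᵀ * Xᵀ) * G * (X * X.adjugate) := by rw [h1, h2]
    _ = _ := by simp only [Matrix.mul_assoc]

theorem no_five : ∀ x y z : ZMod 8, x ^ 2 + 2 * y ^ 2 + 2 * z ^ 2 + 2 * y * z ≠ 5 ∧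
    x ^ 2 + 2 * y ^ 2 + 2 * z ^ 2 - 2 * y * z ≠ 5 := by decide

/-- the class number statement -/
theorem equi_diag (G : Matrix (Fin 3) (Fin 3) ℤ) (hG : Gᵀ = G)
    (hpos : ∀ u v w : ℤ, (u ≠ 0 ∨ v ≠ 0 ∨ w ≠ 0) → 0 < q G u v w) (hdet : G.det = 3)
    {u v w : ℤ} (h5 : q G u v w % 8 = 5) :
    ∃ Y : Matrix (Fin 3) (Fin 3) ℤ, ∀ i j, G i j =
      Y 0 i * Y 0 j + Y 1 i * Y 1 j + 3 * (Y 2 i * Y 2 j) := by
  obtain ⟨G', h1, h2, h3, h4, h6⟩ := reduce G hG hpos hdet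
  obtain ⟨s1, s2, s3⟩ := sym_entries (h1.symm' hG)
  obtain ⟨Y, hY⟩ := equi_inv h1
  rcases h6 with ⟨a1, a2, a3⟩ | ⟨a1, a2, a3⟩
  · refine ⟨Y, fun i j => ?_⟩
    rw [hY]
    simp only [Matrix.mul_apply, Fin.sum_univ_three, Matrix.transpose_apply, s1, s2, s3, h2, h3,
      h4, a1, a2, a3]
    ring
  · exfalso
    set x := Y 0 0 * u + Y 0 1 * v + Y 0 2 * w with hx
    set y := Y 1 0 * u + Y 1 1 * v + Y 1 2 * w with hy
    set z := Y 2 0 * u + Y 2 1 * v + Y 2 2 * w with hz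
    have key : q G u v w = x ^ 2 + 2 * y ^ 2 + 2 * z ^ 2 + 2 * G' 1 2 * (y * z) := by
      rw [q, hY, hx, hy, hz]
      simp only [Matrix.mul_apply, Fin.sum_univ_three, Matrix.transpose_apply, s1, s2, s3, h2, h3,
        h4, a1, a3]
      ring
    have h7 : ((q G u v w : ℤ) : ZMod 8) = 5 := by
      have : (q G u v w) = 5 + 8 * (q G u v w / 8) := by omega
      rw [this]
      push_cast
      have h8 : (8 : ZMod 8) = 0 := by decide
      rw [h8]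
      ring
    rw [key] at h7
    rcases a2 with a2 | a2
    · rw [a2] at h7
      apply (no_five (x : ZMod 8) (y : ZMod 8) (z : ZMod 8)).1
      rw [← h7]
      push_cast
      ring
    · rw [a2] at h7
      apply (no_five (x : ZMod 8) (y : ZMod 8) (z : ZMod 8)).2
      rw [← h7]
      push_cast
      ring

/-- positive definiteness from the leading minors -/
theorem posdef_of_minors (G : Matrix (Fin 3) (Fin 3) ℤ) (hG : Gᵀ = G) (h1 : 0 < G 0 0)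
    (h2 : 0 < G 0 0 * G 1 1 - G 0 1 ^ 2) (h3 : 0 < G.det) :
    ∀ u v w : ℤ, (u ≠ 0 ∨ v ≠ 0 ∨ w ≠ 0) → 0 < q G u v w := by
  intro u v w h
  obtain ⟨s1, s2, s3⟩ := sym_entries hG
  set F22 := G 0 0 * G 1 1 - G 0 1 ^ 2 with hF22
  set F33 := G 0 0 * G 2 2 - G 0 2 ^ 2 with hF33
  set F23 := G 0 0 * G 1 2 - G 0 1 * G 0 2 with hF23
  have hdet : F22 * F33 - F23 ^ 2 = G 0 0 * G.det := by
    rw [Matrix.det_fin_three, s1, s2, s3, hF22, hF33, hF23]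
    ring
  have k1 : F22 * (G 0 0 * q G u v w) = F22 * (G 0 0 * u + G 0 1 * v + G 0 2 * w) ^ 2 +
      (F22 * v + F23 * w) ^ 2 + (G 0 0 * G.det) * w ^ 2 := by
    rw [← hdet, q, hF22, hF33, hF23]
    ring
  have k2 : 0 < F22 * (G 0 0 * q G u v w) := by
    rw [k1]
    rcases eq_or_ne w 0 with hw | hw
    · rcases eq_or_ne v 0 with hv | hv
      · have hu : u ≠ 0 := by tauto
        rw [hw, hv]
        have : 0 < F22 * (G 0 0 * u) ^ 2 := by positivity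
        simpa using this
      · rw [hw]
        have : 0 < (F22 * v) ^ 2 := by positivity
        have h' : 0 ≤ F22 * (G 0 0 * u + G 0 1 * v + G 0 2 * 0) ^ 2 := by positivity
        simp only [mul_zero, add_zero] at h' ⊢
        nlinarith
    · have : 0 < (G 0 0 * G.det) * w ^ 2 := by positivity
      positivity
  have k3 : 0 < G 0 0 * q G u v w := (mul_pos_iff_of_pos_left h2).1 k2
  exact (mul_pos_iff_of_pos_left h1).1 k3

end Pool.Agent.R745.Tri
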